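import Mathlib
import Pool.Agent.Helper64.RN.Goals

/-!
# Project RN: contraction (packet RN-CN)
-/

set_option autoImplicit false

open scoped BigOperators

universe u

namespace Pool.Agent.Helper23.RN.CN

open Module Pool.Agent.Helper64.IG Pool.Agent.Helper64.RN

/-- an automorphism that maps an independent family to standard vectors -/
lemma exists_auto (K : Type u) [Field K] (q p r : ℕ) (eq : Fin q ≃ Fin p ⊕ Fin r)
    (w : Fin r → Fin q → K) (hw : LinearIndependent K w) :
    ∃ L : (Fin q → K) ≃ₗ[K] (Fin q → K), ∀ i, L (w i) = Pi.single (eq.symm (Sum.inr i)) 1 := by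
  have hq : q = p + r := by
    have := Fintype.card_congr eq
    simpa using this
  obtain ⟨C, hC⟩ := Submodule.exists_isCompl (Submodule.span K (Set.range w))
  have hfr : finrank K (Submodule.span K (Set.range w)) = r := by
    rw [finrank_span_eq_card hw, Fintype.card_fin]
  have hfC : finrank K C = p := by
    have h1 := Submodule.finrank_add_eq_of_isCompl hC
    rw [hfr, Module.finrank_fin_fun] at h1
    omega
  let bW : Basis (Fin r) K (Submodule.span K (Set.range w)) := Basis.span hw
  let bC : Basis (Fin p) K C := Module.finBasisOfFinrankEq K C hfC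
  let b0 : Basis (Fin p ⊕ Fin r) K (Fin q → K) :=
    (bC.prod bW).map (Submodule.prodEquivOfIsCompl C _ hC.symm)
  have hb0 : ∀ i, b0 (Sum.inr i) = w i := by
    intro i
    simp only [b0, Basis.map_apply, Basis.prod_apply, Sum.elim_inr, Function.comp_apply,
      LinearMap.coe_inr, Submodule.coe_prodEquivOfIsCompl', Submodule.coe_zero, zero_add]
    exact congrArg Subtype.val (Basis.span_apply hw i)
  let b : Basis (Fin q) K (Fin q → K) := b0.reindex eq.symm
  refine ⟨b.equivFun, fun i => ?_⟩
  have h1 : w i = b (eq.symm (Sum.inr i)) := by
    simp only [b, Basis.reindex_apply, Equiv.symm_symm, Equiv.apply_symm_apply]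
    exact (hb0 i).symm
  rw [h1]
  ext j
  rw [Basis.equivFun_self, Pi.single_apply]
  by_cases hj : j = eq.symm (Sum.inr i)
  · rw [if_pos hj.symm, if_pos hj]
  · rw [if_neg (Ne.symm hj), if_neg hj]

theorem t : S_CN := by
  intro K _ E _ _ q p r eq c v s hc hli
  obtain ⟨L, hL⟩ := exists_auto K q p r eq (fun i => v (s i)) hli
  have hq : q = p + r := by
    have := Fintype.card_congr eq
    simpa using this
  let D : K := LinearMap.det (L : (Fin q → K) →ₗ[K] (Fin q → K))
  have hD : D ≠ 0 := (LinearEquiv.isUnit_det' L).ne_zero
  let v' : E → Fin p → K := fun e i => L (v e) (eq.symm (Sum.inl i))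
  refine ⟨c / D, v', div_ne_zero hc hD, ?_, ?_⟩
  · intro a
    -- multiply by `L`
    let M : Matrix (Fin q) (Fin q) K := fun i j => v (Sum.elim a s (eq j)) i
    let N : Matrix (Fin p ⊕ Fin r) (Fin p ⊕ Fin r) K :=
      fun x y => L (v (Sum.elim a s y)) (eq.symm x)
    have h1 : D * M.det = (N.submatrix eq eq).det := by
      have h2 : LinearMap.toMatrix' (L : (Fin q → K) →ₗ[K] (Fin q → K)) * M
          = N.submatrix eq eq := by
        ext i j
        have h3 : (LinearMap.toMatrix' (L : (Fin q → K) →ₗ[K] (Fin q → K)) * M) i j
            = ((LinearMap.toMatrix' (L : (Fin q → K) →ₗ[K] (Fin q → K))).mulVec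
              (v (Sum.elim a s (eq j)))) i := rfl
        rw [h3, LinearMap.toMatrix'_mulVec]
        simp only [N, Matrix.submatrix_apply, Equiv.symm_apply_apply]
        rfl
      rw [← h2, Matrix.det_mul, LinearMap.det_toMatrix']
    have h2 : N.det = Matrix.det (fun i j : Fin p => v' (a j) i) := by
      have h3 : N = Matrix.fromBlocks (fun i j : Fin p => v' (a j) i) 0
          (fun (i : Fin r) (j : Fin p) => L (v (a j)) (eq.symm (Sum.inr i))) 1 := by
        ext x y
        rcases x with i | i <;> rcases y with j | j
        · rfl
        · simp only [N, Matrix.fromBlocks_apply₁₂, Matrix.zero_apply, Sum.elim_inr]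
          rw [hL, Pi.single_apply, if_neg]
          intro h
          have := eq.symm.injective h
          cases this
        · rfl
        · simp only [N, Matrix.fromBlocks_apply₂₂, Sum.elim_inr]
          rw [hL, Pi.single_apply, Matrix.one_apply]
          by_cases hij : i = j
          · rw [if_pos hij, if_pos (by rw [hij])]
          · rw [if_neg hij, if_neg]
            intro h
            exact hij (Sum.inr_injective (eq.symm.injective h))
      rw [h3, Matrix.det_fromBlocks_zero₁₂, Matrix.det_one, mul_one]
    rw [Matrix.det_submatrix_equiv_self, h2] at h1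
    change c * M.det = c / D * Matrix.det (fun i j : Fin p => v' (a j) i)
    rw [← h1]
    field_simp
  · intro X
    let W : Submodule K (Fin q → K) := Submodule.span K (Set.range (fun i => v (s i)))
    have hfW : finrank K W = r := by
      rw [finrank_span_eq_card hli, Fintype.card_fin]
    let π : (Fin q → K) →ₗ[K] (Fin p → K) :=
      { toFun := fun x i => L x (eq.symm (Sum.inl i))
        map_add' := by intro x y; ext i; simp
        map_smul' := by intro m x; ext i; simp }
    have hπs : ∀ i, π (v (s i)) = 0 := by
      intro i
      ext j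
      change L (v (s i)) (eq.symm (Sum.inl j)) = 0
      rw [hL, Pi.single_apply, if_neg]
      intro h
      have := eq.symm.injective h
      cases this
    have hWle : W ≤ LinearMap.ker π := by
      apply Submodule.span_le.mpr
      rintro x ⟨i, rfl⟩
      exact LinearMap.mem_ker.mpr (hπs i)
    have hsurj : Function.Surjective π := by
      intro y
      refine ⟨L.symm (fun j => Sum.elim y (fun _ => 0) (eq j)), ?_⟩
      ext i
      change L (L.symm (fun j => Sum.elim y (fun _ => 0) (eq j))) (eq.symm (Sum.inl i)) = y i
      rw [LinearEquiv.apply_symm_apply, Equiv.apply_symm_apply, Sum.elim_inl]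
    have hker : W = LinearMap.ker π := by
      apply Submodule.eq_of_le_of_finrank_eq hWle
      have h1 := LinearMap.finrank_range_add_finrank_ker π
      rw [LinearMap.range_eq_top.mpr hsurj, finrank_top, Module.finrank_fin_fun,
        Module.finrank_fin_fun] at h1
      rw [hfW]
      omega
    let S : Submodule K (Fin q → K) :=
      Submodule.span K (v '' ((X ∪ Finset.univ.image s : Finset E) : Set E))
    have hWS : W ≤ S := by
      apply Submodule.span_mono
      rintro x ⟨i, rfl⟩
      exact ⟨s i, by simp, rfl⟩
    have hmap : S.map π = Submodule.span K (v' '' (X : Set E)) := by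
      rw [Submodule.map_span]
      apply le_antisymm
      · apply Submodule.span_le.mpr
        rintro x ⟨y, ⟨e, he, rfl⟩, rfl⟩
        rw [Finset.mem_coe, Finset.mem_union, Finset.mem_image] at he
        rcases he with he | ⟨i, _, rfl⟩
        · exact Submodule.subset_span ⟨e, he, rfl⟩
        · rw [hπs]; exact Submodule.zero_mem _
      · apply Submodule.span_mono
        rintro x ⟨e, he, rfl⟩
        exact ⟨v e, ⟨e, by
          rw [Finset.mem_coe, Finset.mem_union]; exact Or.inl he, rfl⟩, rfl⟩
    have h1 := LinearMap.finrank_range_add_finrank_ker (π.domRestrict S)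
    rw [LinearMap.range_domRestrict, LinearMap.ker_domRestrict, hmap, ← hker] at h1
    have h2 : finrank K (W.comap S.subtype) = r := by
      rw [← hfW]
      exact (Submodule.comapSubtypeEquivOfLe hWS).finrank_eq
    change finrank K S = finrank K (Submodule.span K (v' '' (X : Set E))) + r
    rw [← h1, h2]

end Pool.Agent.Helper23.RN.CN
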