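import Pool.Agent.Helper64.RN.Goals2

/-!
Project RN part 2 (MP_d01c92_ag), packet HM: the homogeneous statement.
-/

set_option autoImplicit false

open scoped BigOperators

universe u

namespace Pool.Agent.Helper23.RN.HM

open Module Pool.Agent.Helper64.IG Pool.Agent.Helper64.RN

lemma homog_eval₂ {σ R S : Type*} [CommSemiring R] [CommSemiring S] (f : R →+* S) (r : S)
    (x : σ → S) (h : ℕ) (g : MvPolynomial σ R) (hg : g.IsHomogeneous h) :
    MvPolynomial.eval₂ f (fun i => r * x i) g = r ^ h * MvPolynomial.eval₂ f x g := by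
  rw [MvPolynomial.eval₂_eq, MvPolynomial.eval₂_eq, Finset.mul_sum]
  refine Finset.sum_congr rfl fun d hd => ?_
  have h1 : h = ∑ i ∈ d.support, d i := hg.degree_eq_sum_deg_support hd
  simp_rw [mul_pow]
  rw [Finset.prod_mul_distrib, Finset.prod_pow_eq_pow_sum, ← h1]
  ring

/-- The polynomial `g` at the minors of generic vectors. -/
noncomputable def GG {K : Type u} [Field K] {n p : ℕ} (g : MvPolynomial (Fin p → Ix n p) K) :
    MvPolynomial (Ix n p × Fin p) K :=
  MvPolynomial.eval₂ MvPolynomial.C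
    (fun a : Fin p → Ix n p => Matrix.det (fun i j => (MvPolynomial.X (a j, i) :
      MvPolynomial (Ix n p × Fin p) K))) g

lemma GG_eval₂ {K : Type u} [Field K] {n p : ℕ} (g : MvPolynomial (Fin p → Ix n p) K)
    {S : Type*} [CommRing S] (f : K →+* S) (y : Ix n p × Fin p → S) :
    MvPolynomial.eval₂ f y (GG g) =
      MvPolynomial.eval₂ f (fun a : Fin p → Ix n p => Matrix.det (fun i j => y (a j, i))) g := by
  unfold GG
  have h1 := MvPolynomial.hom_eval₂ g (MvPolynomial.C : K →+* MvPolynomial (Ix n p × Fin p) K)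
    (MvPolynomial.eval₂Hom f y)
    (fun a : Fin p → Ix n p => Matrix.det (fun i j => (MvPolynomial.X (a j, i) :
      MvPolynomial (Ix n p × Fin p) K)))
  rw [MvPolynomial.coe_eval₂Hom] at h1
  rw [h1]
  have h2 : (MvPolynomial.eval₂Hom f y).comp (MvPolynomial.C : K →+* MvPolynomial (Ix n p × Fin p) K)
      = f := by
    ext r
    simp
  rw [h2]
  congr 1
  funext a
  have h3 := RingHom.map_det (MvPolynomial.eval₂Hom f y)
    (Matrix.of fun i j => (MvPolynomial.X (a j, i) : MvPolynomial (Ix n p × Fin p) K))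
  have h4 : MvPolynomial.eval₂ f y (Matrix.det (Matrix.of fun i j => (MvPolynomial.X (a j, i) :
      MvPolynomial (Ix n p × Fin p) K))) = Matrix.det (fun i j => y (a j, i)) := by
    rw [← MvPolynomial.coe_eval₂Hom, h3]
    congr 1
    ext i j
    simp [RingHom.mapMatrix_apply]
  exact h4

theorem t (hUP : S_UP.{u}) (hID : S_ID.{u}) (hME : S_ME.{u}) (hDFB : S_DFB.{u}) (hWR : S_WR.{u})
    (hTA : S_TA.{u}) (hLC : S_LC.{u}) : S_HM.{u} := by
  classical
  intro K _ _ n p h g hg hM z
  -- UP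
  obtain ⟨𝕂, _, _, _, v, hGP, hv⟩ := hUP K p (Ix n p) (GG g) (by
    intro M
    obtain ⟨v, hv1, hv2⟩ := hM M
    refine ⟨v, hv1, fun ι hι => ?_⟩
    have h1 := hv2 ι hι
    rw [← MvPolynomial.eval₂_id]
    rw [← MvPolynomial.eval₂_id] at h1
    rw [GG_eval₂]
    exact h1)
  have : CharZero 𝕂 := charZero_of_injective_algebraMap (algebraMap K 𝕂).injective
  obtain ⟨Y, I, hY, hIp, hI1, hI2⟩ := hID 𝕂 p v
  obtain ⟨Ω, _, _, δ, η, hη, hconst⟩ := hDFB 𝕂 p I hIp
  have : CharZero Ω := charZero_of_injective_algebraMap (algebraMap 𝕂 Ω).injective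
  -- linear independence
  have hlin : LinearIndependent 𝕂 η := by
    rw [Fintype.linearIndependent_iff]
    intro c hc
    have hL : (∑ i, MvPolynomial.C (c i) * MvPolynomial.X i : MvPolynomial (Fin p) 𝕂) ∈ I := by
      rw [← hη]
      rw [map_sum]
      rw [← hc]
      refine Finset.sum_congr rfl fun i _ => ?_
      rw [map_mul, MvPolynomial.aeval_C, MvPolynomial.aeval_X, Algebra.smul_def]
    let emb := hY.natEmbedding
    have hinj : Function.Injective (fun j : Fin p => ((emb (j : ℕ) : Y) : ℕ)) := by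
      intro i j hij
      exact Fin.ext (emb.injective (Subtype.ext hij))
    have hdet := hGP (fun j : Fin p => ((emb (j : ℕ) : Y) : ℕ)) hinj
    have hz : Matrix.vecMul c (Matrix.of fun i j : Fin p => v ((emb (j : ℕ) : Y) : ℕ) i) = 0 := by
      ext j
      have h1 := hI1 _ hL ((emb (j : ℕ) : Y) : ℕ) (emb (j : ℕ)).2
      rw [map_sum] at h1
      simp only [map_mul, MvPolynomial.eval_C, MvPolynomial.eval_X] at h1
      simpa [Matrix.vecMul, dotProduct] using h1
    have h2 := Matrix.eq_zero_of_vecMul_eq_zero (M := Matrix.of fun i j : Fin p =>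
      v ((emb (j : ℕ) : Y) : ℕ) i) hdet hz
    intro i
    rw [h2]
    rfl
  have hW := hWR 𝕂 Ω δ hconst p η hlin
  -- Taylor
  choose τ hτ using fun a : ℕ => hTA 𝕂 Ω δ a
  let φ : K →+* PowerSeries Ω := (algebraMap 𝕂 (PowerSeries Ω)).comp (algebraMap K 𝕂)
  have hmain : MvPolynomial.eval₂ φ
      (fun a : Fin p → Ix n p => Matrix.det (fun i j => τ (z (a j)) (η i))) g = 0 := by
    have h1 := hME 𝕂 p (Ix n p) v Y I hY hI2 (MvPolynomial.map (algebraMap K 𝕂) (GG g)) (by
      intro ι hι _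
      rw [MvPolynomial.eval_map]
      exact hv ι hι) (PowerSeries Ω) (fun e i => τ (z e) (η i)) (by
      intro e q hq
      have h2 : MvPolynomial.aeval η q = 0 := (hη q).2 hq
      have h3 : MvPolynomial.aeval (fun i => τ (z e) (η i)) q = τ (z e) (MvPolynomial.aeval η q) := by
        rw [← MvPolynomial.comp_aeval_apply]
      rw [h3, h2, map_zero])
    rw [MvPolynomial.aeval_def, MvPolynomial.eval₂_map] at h1
    rw [GG_eval₂] at h1
    exact h1
  -- LC
  choose D hD1 hD2 using fun a : Fin p → Ix n p =>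
    hLC Ω p (fun i j => ((j.factorial : Ω))⁻¹ * (fun g => δ g)^[j] (η i)) (fun l => (z (a l) : Ω))
  have hDa : ∀ a : Fin p → Ix n p, Matrix.det (fun i j => τ (z (a j)) (η i)) =
      PowerSeries.X ^ (p * (p - 1) / 2) * D a := by
    intro a
    rw [← hD1 a]
    congr 1
    funext i l
    ext j
    rw [hτ, PowerSeries.coeff_mk]
    field_simp
  simp_rw [hDa] at hmain
  rw [homog_eval₂ φ _ _ h g hg] at hmain
  have hD0 : MvPolynomial.eval₂ φ D g = 0 := by
    rcases mul_eq_zero.1 hmain with h1 | h1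
    · exact absurd h1 (pow_ne_zero _ (pow_ne_zero _ PowerSeries.X_ne_zero))
    · exact h1
  -- constant coefficients
  let ψ : K →+* Ω := (algebraMap 𝕂 Ω).comp (algebraMap K 𝕂)
  have hcc : MvPolynomial.eval₂ ψ (fun a => PowerSeries.constantCoeff (D a)) g = 0 := by
    have h1 := MvPolynomial.hom_eval₂ g φ (PowerSeries.constantCoeff (R := Ω)) D
    rw [hD0, map_zero] at h1
    have h2 : (PowerSeries.constantCoeff (R := Ω)).comp φ = ψ := by
      ext r
      simp [φ, ψ, PowerSeries.algebraMap_apply]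
    rw [h2] at h1
    exact h1.symm
  simp_rw [hD2] at hcc
  rw [homog_eval₂ ψ _ _ h g hg] at hcc
  have hw : Matrix.det (fun i j : Fin p => (((j : ℕ).factorial : Ω))⁻¹ *
      (fun g => δ g)^[(j : ℕ)] (η i)) ≠ 0 := by
    have h1 := Matrix.det_mul_row (fun j : Fin p => (((j : ℕ).factorial : Ω))⁻¹)
      (Matrix.of fun i j : Fin p => (fun g => δ g)^[(j : ℕ)] (η i))
    have h2 : Matrix.det (fun i j : Fin p => (((j : ℕ).factorial : Ω))⁻¹ *
      (fun g => δ g)^[(j : ℕ)] (η i)) = (∏ j : Fin p, (((j : ℕ).factorial : Ω))⁻¹) *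
        Matrix.det (fun i j : Fin p => (fun g => δ g)^[(j : ℕ)] (η i)) := h1
    rw [h2]
    refine mul_ne_zero ?_ hW
    refine Finset.prod_ne_zero_iff.2 fun j _ => inv_ne_zero ?_
    exact_mod_cast Nat.factorial_ne_zero _
  have hV : MvPolynomial.eval₂ ψ (fun a : Fin p → Ix n p =>
      Matrix.det (fun i l : Fin p => (z (a l) : Ω) ^ (i : ℕ))) g = 0 := by
    rcases mul_eq_zero.1 hcc with h1 | h1
    · exact absurd h1 (pow_ne_zero _ hw)
    · exact h1
  have hψ : ∀ a : Fin p → Ix n p, Matrix.det (fun i l : Fin p => (z (a l) : Ω) ^ (i : ℕ)) =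
      ψ (Matrix.det (fun i l : Fin p => (z (a l) : K) ^ (i : ℕ))) := by
    intro a
    have h1 := RingHom.map_det ψ (Matrix.of fun i l : Fin p => (z (a l) : K) ^ (i : ℕ))
    have h2 : Matrix.det (fun i l : Fin p => (z (a l) : Ω) ^ (i : ℕ)) =
      Matrix.det (ψ.mapMatrix (Matrix.of fun i l : Fin p => (z (a l) : K) ^ (i : ℕ))) := by
      congr 1
      ext i l
      simp [RingHom.mapMatrix_apply]
    rw [h2, ← h1]
    rfl
  simp_rw [hψ] at hV
  have h5 : ψ (MvPolynomial.eval (fun a : Fin p → Ix n p =>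
      Matrix.det (fun i l : Fin p => (z (a l) : K) ^ (i : ℕ))) g) = 0 := by
    rw [← hV]
    exact MvPolynomial.eval₂_comp _ _ _
  exact (map_eq_zero_iff ψ ψ.injective).1 h5

end Pool.Agent.Helper23.RN.HM
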